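import Mathlib

/-!
# Homeomorphisms conjugate to their inverse have stable flow length zero

Problem MP_e54d61_gt, Q2 (answer: no).  If `g f g⁻¹ = f⁻¹` then `f^(2n) = f^n g f^(-n) g⁻¹`.  The
flow length is invariant under conjugation and under inversion, so the flow length of `f^(2n)` is at
most twice that of `g`, for all `n`.
-/

set_option autoImplicit false

open Filter Topology

namespace Pool.Agent.Results.MP_e54d61_gt.ConjugateToInverse

section Definitions

variable {X : Type*} [TopologicalSpace X]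

/-- `h` is isotopic to the identity: there is a level preserving homeomorphism of `[0,1] × X` which
is the identity at level `0` and `h` at level `1`. -/
def IsotopicToId (h : X ≃ₜ X) : Prop :=
  ∃ Φ : (unitInterval × X) ≃ₜ (unitInterval × X), (∀ p, (Φ p).1 = p.1) ∧
    (∀ x, Φ (0, x) = (0, x)) ∧ ∀ x, Φ (1, x) = (1, h x)

variable (X) in
/-- `Homeo_0(X)`: the group of the homeomorphisms of `X` isotopic to the identity. -/
def Homeo0 : Subgroup (X ≃ₜ X) where
  carrier := {h | IsotopicToId h}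
  one_mem' := ⟨Homeomorph.refl _, fun _ => rfl, fun _ => rfl, fun _ => rfl⟩
  mul_mem' := by
    rintro a b ⟨Φ, h1, h2, h3⟩ ⟨Ψ, k1, k2, k3⟩
    refine ⟨Ψ.trans Φ, fun p => ?_, fun x => ?_, fun x => ?_⟩
    · rw [Homeomorph.trans_apply, h1, k1]
    · rw [Homeomorph.trans_apply, k2, h2]
    · rw [Homeomorph.trans_apply, k3, h3]
      rfl
  inv_mem' := by
    rintro a ⟨Φ, h1, h2, h3⟩
    refine ⟨Φ.symm, fun p => ?_, fun x => ?_, fun x => ?_⟩
    · have := h1 (Φ.symm p)
      rw [Homeomorph.apply_symm_apply] at this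
      exact this.symm
    · rw [Homeomorph.symm_apply_eq, h2]
    · rw [Homeomorph.symm_apply_eq, h3]
      exact congrArg (Prod.mk 1) (a.apply_symm_apply x).symm

/-- `h` is the time-one map of a flow, that is, of a continuous one-parameter group of
homeomorphisms. -/
def IsTimeOneMap (h : X ≃ₜ X) : Prop := ∃ φ : Flow ℝ X, ∀ x, h x = φ 1 x

/-- The word length: the least number of elements of `S` whose product is `h` (it is `⊤` if `h` is
not a product of elements of `S`). -/
noncomputable def wordLength {G : Type*} [Group G] (S : Set G) (h : G) : ℕ∞ :=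
  ⨅ (l : List G) (_ : (∀ s ∈ l, s ∈ S) ∧ l.prod = h), (l.length : ℕ∞)

/-- The flow length: the word length of `Homeo_0(X)` for the set of time-one maps of flows. -/
noncomputable def flowLength (h : Homeo0 X) : ℕ∞ :=
  wordLength {s : Homeo0 X | IsTimeOneMap (s : X ≃ₜ X)} h

end Definitions

section Words

variable {G : Type*} [Group G] {S : Set G}

theorem wordLength_le {h : G} (l : List G) (h1 : ∀ s ∈ l, s ∈ S) (h2 : l.prod = h) :
    wordLength S h ≤ l.length :=
  iInf₂_le l ⟨h1, h2⟩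

theorem exists_word {h : G} (hh : wordLength S h ≠ ⊤) :
    ∃ l : List G, (∀ s ∈ l, s ∈ S) ∧ l.prod = h ∧ (l.length : ℕ∞) = wordLength S h := by
  classical
  by_cases hne : ∃ l : List G, (∀ s ∈ l, s ∈ S) ∧ l.prod = h
  · obtain ⟨l₀, hl₀⟩ := hne
    have hex : ∃ n, ∃ l : List G, ((∀ s ∈ l, s ∈ S) ∧ l.prod = h) ∧ l.length = n :=
      ⟨_, l₀, hl₀, rfl⟩
    obtain ⟨l, hl, hlen⟩ := Nat.find_spec hex
    refine ⟨l, hl.1, hl.2, le_antisymm ?_ (wordLength_le l hl.1 hl.2)⟩
    refine le_iInf₂ fun m hm => ?_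
    rw [hlen]
    exact_mod_cast Nat.find_min' hex ⟨m, hm, rfl⟩
  · exfalso
    apply hh
    unfold wordLength
    simp only [iInf_eq_top]
    intro l hl
    exact absurd ⟨l, hl.1, hl.2⟩ hne

theorem wordLength_mul (a b : G) : wordLength S (a * b) ≤ wordLength S a + wordLength S b := by
  by_cases ha : wordLength S a = ⊤
  · rw [ha]; simp
  by_cases hb : wordLength S b = ⊤
  · rw [hb]; simp
  obtain ⟨l, l1, l2, l3⟩ := exists_word ha
  obtain ⟨m, m1, m2, m3⟩ := exists_word hb
  rw [← l3, ← m3]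
  refine (wordLength_le (l ++ m) ?_ ?_).trans ?_
  · intro s hs
    rcases List.mem_append.1 hs with h | h
    · exact l1 s h
    · exact m1 s h
  · rw [List.prod_append, l2, m2]
  · rw [List.length_append]; push_cast; exact le_rfl

theorem wordLength_conj (hS : ∀ s ∈ S, ∀ c : G, c * s * c⁻¹ ∈ S) (c a : G) :
    wordLength S (c * a * c⁻¹) ≤ wordLength S a := by
  by_cases ha : wordLength S a = ⊤
  · rw [ha]; exact le_top
  obtain ⟨l, l1, l2, l3⟩ := exists_word ha
  rw [← l3]
  refine (wordLength_le (l.map fun s => c * s * c⁻¹) ?_ ?_).trans ?_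
  · intro s hs
    obtain ⟨t, ht, rfl⟩ := List.mem_map.1 hs
    exact hS t (l1 t ht) c
  · rw [← l2]
    clear l1 l2 l3
    induction l with
    | nil => simp
    | cons x l ih => rw [List.map_cons, List.prod_cons, List.prod_cons, ih]; group
  · rw [List.length_map]

theorem wordLength_inv (hS : ∀ s ∈ S, s⁻¹ ∈ S) (a : G) :
    wordLength S a⁻¹ ≤ wordLength S a := by
  by_cases ha : wordLength S a = ⊤
  · rw [ha]; exact le_top
  obtain ⟨l, l1, l2, l3⟩ := exists_word ha
  rw [← l3]
  refine (wordLength_le (l.map fun s => s⁻¹).reverse ?_ ?_).trans ?_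
  · intro s hs
    obtain ⟨t, ht, rfl⟩ := List.mem_map.1 (List.mem_reverse.1 hs)
    exact hS t (l1 t ht)
  · rw [← l2, List.prod_inv_reverse]
  · rw [List.length_reverse, List.length_map]

theorem wordLength_one : wordLength S (1 : G) = 0 :=
  le_antisymm ((wordLength_le [] (by simp) (by simp)).trans (by simp)) bot_le

/-- The key computation. -/
theorem pow_eq {f g : G} (h : g * f * g⁻¹ = f⁻¹) (n : ℕ) :
    f ^ (2 * n) = (f ^ n * g * (f ^ n)⁻¹) * g⁻¹ := by
  have h1 : g * f ^ n * g⁻¹ = (f ^ n)⁻¹ := by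
    rw [← conj_pow, h, inv_pow]
  have h2 : g * (f ^ n)⁻¹ * g⁻¹ = f ^ n := by
    have := congrArg (fun x => x⁻¹) h1
    simp only [mul_inv_rev, inv_inv] at this
    rw [mul_assoc]
    exact this
  calc f ^ (2 * n) = f ^ n * f ^ n := by rw [two_mul, pow_add]
    _ = f ^ n * (g * (f ^ n)⁻¹ * g⁻¹) := by rw [h2]
    _ = _ := by group

theorem wordLength_pow_le (hS : ∀ s ∈ S, ∀ c : G, c * s * c⁻¹ ∈ S) (hS' : ∀ s ∈ S, s⁻¹ ∈ S)
    {f g : G} (h : g * f * g⁻¹ = f⁻¹) (n : ℕ) : wordLength S (f ^ (2 * n)) ≤ 2 * wordLength S g := by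
  rw [pow_eq h, two_mul]
  exact (wordLength_mul _ _).trans
    (add_le_add (wordLength_conj hS _ _) (wordLength_inv hS' _))

theorem wordLength_pow_le' (hS : ∀ s ∈ S, ∀ c : G, c * s * c⁻¹ ∈ S) (hS' : ∀ s ∈ S, s⁻¹ ∈ S)
    {f g : G} (h : g * f * g⁻¹ = f⁻¹) (n : ℕ) :
    wordLength S (f ^ n) ≤ 2 * wordLength S g + wordLength S f := by
  rcases Nat.even_or_odd' n with ⟨k, rfl | rfl⟩
  · exact (wordLength_pow_le hS hS' h k).trans le_self_add
  · rw [pow_succ]
    exact (wordLength_mul _ _).trans (add_le_add (wordLength_pow_le hS hS' h k) le_rfl)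

end Words

section Flows

variable {X : Type*} [TopologicalSpace X]

theorem IsTimeOneMap.inv {h : X ≃ₜ X} (hh : IsTimeOneMap h) : IsTimeOneMap h⁻¹ := by
  obtain ⟨φ, hφ⟩ := hh
  refine ⟨φ.reverse, fun x => ?_⟩
  rw [Homeomorph.inv_apply, Homeomorph.symm_apply_eq, hφ, Flow.reverse_apply, ← φ.map_add]
  simp

theorem IsTimeOneMap.conj {h : X ≃ₜ X} (hh : IsTimeOneMap h) (c : X ≃ₜ X) :
    IsTimeOneMap (c * h * c⁻¹) := by
  obtain ⟨φ, hφ⟩ := hh
  refine ⟨⟨fun t x => c (φ t (c.symm x)), ?_, ?_, ?_⟩, fun x => ?_⟩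
  · have : Continuous fun p : ℝ × X => c (φ p.1 (c.symm p.2)) := by
      refine c.continuous.comp (φ.continuous continuous_fst (c.symm.continuous.comp continuous_snd))
    exact this
  · intro s t x
    simp [φ.map_add]
  · intro x
    simp
  · simp [hφ]

/-- The time-one maps of flows are isotopic to the identity. -/
theorem IsTimeOneMap.mem {h : X ≃ₜ X} (hh : IsTimeOneMap h) : h ∈ Homeo0 X := by
  obtain ⟨φ, hφ⟩ := hh
  refine ⟨⟨⟨fun p => (p.1, φ p.1 p.2), fun p => (p.1, φ (-p.1) p.2), fun p => ?_, fun p => ?_⟩,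
    ?_, ?_⟩, fun p => rfl, fun x => ?_, fun x => ?_⟩
  · refine Prod.ext rfl ?_
    change φ (-(p.1 : ℝ)) (φ p.1 p.2) = p.2
    rw [← φ.map_add]; simp
  · refine Prod.ext rfl ?_
    change φ (p.1 : ℝ) (φ (-(p.1 : ℝ)) p.2) = p.2
    rw [← φ.map_add]; simp
  · exact continuous_fst.prodMk
      (φ.continuous (continuous_subtype_val.comp continuous_fst) continuous_snd)
  · exact continuous_fst.prodMk
      (φ.continuous (continuous_subtype_val.comp continuous_fst).neg continuous_snd)
  · refine Prod.ext rfl ?_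
    change φ ((0 : unitInterval) : ℝ) x = x
    simp
  · refine Prod.ext rfl ?_
    change φ ((1 : unitInterval) : ℝ) x = h x
    rw [hφ]; simp

end Flows

/-- Let `X` be a topological space, for instance a closed surface, and let `f` and `g` be in
`Homeo_0(X)` with `g f g⁻¹ = f⁻¹`.  Then the flow length of `f^(2n)` is at most twice the flow length
of `g`, for every `n`, and the stable flow length of `f` is zero (if `f` and `g` are products of
time-one maps of flows, which holds for all elements of `Homeo_0` of a closed surface). -/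
theorem result (X : Type*) [TopologicalSpace X] (f g : Homeo0 X) (h : g * f * g⁻¹ = f⁻¹) :
    (∀ n : ℕ, flowLength (f ^ (2 * n)) ≤ 2 * flowLength g) ∧
    (∀ n : ℕ, flowLength (f ^ n) ≤ 2 * flowLength g + flowLength f) ∧
    (flowLength f ≠ ⊤ → flowLength g ≠ ⊤ →
      Tendsto (fun n : ℕ => ((flowLength (f ^ n)).toNat : ℝ) / n) atTop (𝓝 0)) := by
  have hS : ∀ s ∈ {s : Homeo0 X | IsTimeOneMap (s : X ≃ₜ X)}, ∀ c : Homeo0 X,
      c * s * c⁻¹ ∈ {s : Homeo0 X | IsTimeOneMap (s : X ≃ₜ X)} :=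
    fun s hs c => IsTimeOneMap.conj hs c
  have hS' : ∀ s ∈ {s : Homeo0 X | IsTimeOneMap (s : X ≃ₜ X)},
      s⁻¹ ∈ {s : Homeo0 X | IsTimeOneMap (s : X ≃ₜ X)} := fun s hs => IsTimeOneMap.inv hs
  have key : ∀ n : ℕ, flowLength (f ^ n) ≤ 2 * flowLength g + flowLength f :=
    fun n => wordLength_pow_le' hS hS' h n
  refine ⟨fun n => wordLength_pow_le hS hS' h n, key, fun hf hg => ?_⟩
  have hfin : 2 * flowLength g + flowLength f ≠ ⊤ :=
    WithTop.add_ne_top.2 ⟨WithTop.mul_ne_top (by decide) hg, hf⟩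
  have hb : ∀ n : ℕ, ((flowLength (f ^ n)).toNat : ℝ) ≤
      ((2 * flowLength g + flowLength f).toNat : ℝ) := fun n => by
    exact_mod_cast ENat.toNat_le_toNat (key n) hfin
  refine squeeze_zero (fun n => by positivity) (fun n => div_le_div_of_nonneg_right (hb n)
    (Nat.cast_nonneg n)) ?_
  exact tendsto_const_div_atTop_nhds_zero_nat _

end Pool.Agent.Results.MP_e54d61_gt.ConjugateToInverse
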